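import Mathlib

/-!
Flows towards ends: if a free group acts on a set and every stabiliser centralises some nontrivial
element, then there is an equivariant choice of ends; we record the first letter of the end.
-/

set_option autoImplicit false

namespace Run7.h279

open FreeGroup

section Words

variable {S : Type*} [DecidableEq S]

/-- The first letter of the reduced word. -/
def hd (g : FreeGroup S) : Option (S × Bool) := g.toWord.head?

/-- The inverse letter. -/
def linv (t : S × Bool) : S × Bool := (t.1, !t.2)

/-- The group element of a letter. -/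
def lt (t : S × Bool) : FreeGroup S := FreeGroup.mk [t]

omit [DecidableEq S] in
lemma lt_linv (t : S × Bool) : lt (linv t) = (lt t)⁻¹ := by
  simp [lt, linv, FreeGroup.inv_mk, FreeGroup.invRev]

omit [DecidableEq S] in
lemma linv_linv (t : S × Bool) : linv (linv t) = t := by
  simp [linv]

lemma hd_lt_mul (t : S × Bool) (g : FreeGroup S) :
    hd (lt t * g) = some t ↔ hd g ≠ some (linv t) := by
  have h1 : (lt t * g).toWord = reduce (t :: g.toWord) := by
    rw [toWord_mul, lt, toWord_mk, reduce_singleton]
    rfl
  have hred : IsReduced g.toWord := isReduced_toWord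
  unfold hd
  rw [h1, reduce.cons, reduce_toWord]
  cases hw : g.toWord with
  | nil => simp
  | cons a L =>
    rw [hw] at hred
    by_cases hcond : t.1 = a.1 ∧ t.2 = !a.2
    · have ha : a = linv t := by
        refine Prod.ext hcond.1.symm ?_
        simp [linv, hcond.2]
      simp only [hcond, and_self, if_true, List.head?_cons, ha, ne_eq, not_true_eq_false,
        iff_false]
      intro hL
      cases L with
      | nil => simp at hL
      | cons b L' =>
        simp only [List.head?_cons, Option.some.injEq] at hL
        subst hL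
        have := List.isChain_cons_cons.1 hred
        have h2 := this.1 hcond.1.symm
        rw [h2] at hcond
        exact absurd hcond.2 (by cases b.2 <;> simp)
    · simp only [hcond, if_false, List.head?_cons, true_iff]
      intro hL
      apply hcond
      have : a = linv t := by simpa using hL
      rw [this]
      simp [linv]

/-- Cancellation in a product. -/
lemma exists_cancel (L₁ L₂ : List (S × Bool)) (h₁ : IsReduced L₁) (h₂ : IsReduced L₂) :
    ∃ A B C : List (S × Bool), L₁ = A ++ B ∧ L₂ = invRev B ++ C ∧ reduce (L₁ ++ L₂) = A ++ C := by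
  induction L₁ with
  | nil => exact ⟨[], [], L₂, rfl, by simp [invRev], by simpa using h₂.reduce_eq⟩
  | cons t L ih =>
    have hL : IsReduced L := by
      cases L with
      | nil => exact List.isChain_nil
      | cons a L => exact (List.isChain_cons_cons.1 h₁).2
    obtain ⟨A, B, C, hA, hB, hC⟩ := ih hL
    have h3 : reduce (t :: L ++ L₂) = reduce (t :: (A ++ C)) := by
      rw [List.cons_append, ← reduce_cons_reduce, hC]
    have h4 : reduce (A ++ C) = A ++ C := by rw [← hC]; exact reduce.idem
    cases A with
    | cons a A =>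
      refine ⟨t :: a :: A, B, C, by rw [hA]; rfl, hB, ?_⟩
      rw [h3, reduce.cons, h4]
      rw [hA] at h₁
      have h5 := (List.isChain_cons_cons.1 h₁).1
      have h6 : ¬ (t.1 = a.1 ∧ t.2 = !a.2) := by
        rintro ⟨h7, h8⟩
        have := h5 h7
        rw [this] at h8
        exact absurd h8 (by cases a.2 <;> simp)
      simp [h6]
    | nil =>
      have hLB : L = B := by simpa using hA
      cases C with
      | nil =>
        refine ⟨[t], B, [], by rw [hLB]; rfl, hB, ?_⟩
        rw [h3]
        simp
      | cons c C =>
        rw [List.nil_append] at h3 h4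
        by_cases hcond : t.1 = c.1 ∧ t.2 = !c.2
        · refine ⟨[], t :: B, C, by rw [hLB]; rfl, ?_, ?_⟩
          · rw [hB]
            have : c = (t.1, !t.2) := Prod.ext hcond.1.symm (by simp [hcond.2])
            rw [this]
            simp [invRev]
          · rw [h3, reduce.cons, h4]
            simp [hcond]
        · refine ⟨[t], B, c :: C, by rw [hLB]; rfl, hB, ?_⟩
          rw [h3, reduce.cons, h4]
          simp [hcond]

lemma hd_mul_right (g h : FreeGroup S) (hn : norm h < norm g) : hd (g * h) = hd g := by
  obtain ⟨A, B, C, h1, h2, h3⟩ := exists_cancel g.toWord h.toWord isReduced_toWord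
    isReduced_toWord
  have hA : A ≠ [] := by
    rintro rfl
    have h4 : h.toWord.length = (invRev B ++ C).length := by rw [h2]
    have h5 : g.toWord.length = ([] ++ B).length := by rw [h1]
    have h6 : norm h = h.toWord.length := rfl
    have h7 : norm g = g.toWord.length := rfl
    rw [List.length_append, invRev_length] at h4
    simp at h5
    omega
  unfold hd
  rw [toWord_mul, h3]
  conv_rhs => rw [h1]
  cases A with
  | nil => exact absurd rfl hA
  | cons a A => rfl

lemma le_norm_pow (w : FreeGroup S) (hw : w ≠ 1) (n : ℕ) : n ≤ norm (w ^ n) := by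
  unfold FreeGroup.norm
  rw [toWord_pow, reduceCyclically.reduce_flatten_replicate isReduced_toWord]
  by_cases hn : n = 0
  · simp [hn]
  · have hlen : 1 ≤ (reduceCyclically w.toWord).length := by
      by_contra hcon
      have h0 : reduceCyclically w.toWord = [] := by
        rw [← List.length_eq_zero_iff]; omega
      have h1 := reduceCyclically.conj_conjugator_reduceCyclically w.toWord
      rw [h0, List.append_nil] at h1
      apply hw
      rw [← mk_toWord (x := w), ← h1, ← mul_mk, ← inv_mk, mul_inv_cancel]
    rw [if_neg hn, List.length_append, List.length_append, List.length_flatten]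
    simp only [List.map_replicate, List.sum_replicate, smul_eq_mul]
    nlinarith

lemma norm_large (w f : FreeGroup S) (hw : w ≠ 1) (M : ℕ) :
    ∀ N : ℕ, M + norm f < N → M < norm (f * w ^ N) := by
  intro N hN
  have h1 := le_norm_pow w hw N
  have h2 : norm (w ^ N) ≤ norm f + norm (f * w ^ N) := by
    have := norm_mul_le f⁻¹ (f * w ^ N)
    rw [inv_mul_cancel_left, norm_inv_eq] at this
    exact this
  omega

/-- `t` is the first letter of `f w^∞`. -/
def Lim (w f : FreeGroup S) (t : S × Bool) : Prop :=
  ∃ N₀ : ℕ, ∀ N ≥ N₀, hd (f * w ^ N) = some t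

lemma exists_lim (w f : FreeGroup S) (hw : w ≠ 1) : ∃ t, Lim w f t := by
  set N₀ := norm w + norm f + 1 with hN₀
  have hstep : ∀ N ≥ N₀, hd (f * w ^ (N + 1)) = hd (f * w ^ N) := by
    intro N hN
    rw [pow_succ, ← mul_assoc]
    exact hd_mul_right _ _ (norm_large w f hw (norm w) N (by omega))
  have hconst : ∀ k, hd (f * w ^ (N₀ + k)) = hd (f * w ^ N₀) := by
    intro k
    induction k with
    | zero => rfl
    | succ k ih => rw [← Nat.add_assoc, hstep _ (by omega), ih]
  have hne : f * w ^ N₀ ≠ 1 := by
    intro h
    have := norm_large w f hw 0 N₀ (by omega)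
    rw [h, FreeGroup.norm_one] at this
    exact lt_irrefl _ this
  have hsome : ∃ t, hd (f * w ^ N₀) = some t := by
    unfold hd
    cases hL : (f * w ^ N₀).toWord with
    | nil => exact absurd (toWord_eq_nil_iff.1 hL) hne
    | cons a L => exact ⟨a, rfl⟩
  obtain ⟨t, ht⟩ := hsome
  refine ⟨t, N₀, fun N hN => ?_⟩
  obtain ⟨k, rfl⟩ := Nat.exists_eq_add_of_le hN
  rw [hconst, ht]

lemma Lim.unique {w f : FreeGroup S} {t t' : S × Bool} (h : Lim w f t) (h' : Lim w f t') :
    t = t' := by
  obtain ⟨N, hN⟩ := h
  obtain ⟨N', hN'⟩ := h'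
  have h1 := hN (max N N') (le_max_left _ _)
  have h2 := hN' (max N N') (le_max_right _ _)
  rw [h1] at h2
  exact Option.some.inj h2

lemma Lim.mul_commute {w f g : FreeGroup S} {t : S × Bool} (hw : w ≠ 1) (h : Lim w f t)
    (hg : Commute g w) : Lim w (f * g) t := by
  obtain ⟨N, hN⟩ := h
  refine ⟨max N (norm g + norm f + 1), fun M hM => ?_⟩
  have h1 : f * g * w ^ M = f * w ^ M * g := by
    rw [mul_assoc, (hg.pow_right M).eq, mul_assoc]
  rw [h1, hd_mul_right _ _ (norm_large w f hw (norm g) M (by
    have := le_max_right N (norm g + norm f + 1)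
    omega))]
  exact hN M (le_trans (le_max_left _ _) hM)

lemma Lim.letter {w f : FreeGroup S} {t t' s : S × Bool} (h : Lim w f t)
    (h' : Lim w (lt s * f) t') : t' = s ↔ t ≠ linv s := by
  obtain ⟨N, hN⟩ := h
  obtain ⟨N', hN'⟩ := h'
  have h1 := hN (max N N') (le_max_left _ _)
  have h2 := hN' (max N N') (le_max_right _ _)
  rw [mul_assoc] at h2
  have h3 := hd_lt_mul s (f * w ^ max N N')
  rw [h1, h2] at h3
  simpa using h3

end Words

/-- **Flows.** -/
theorem exists_flow {S X : Type*} [DecidableEq S] [MulAction (FreeGroup S) X]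
    (hX : ∀ x : X, ∃ w : FreeGroup S, w ≠ 1 ∧ ∀ g : FreeGroup S, g • x = x → Commute g w) :
    ∃ l : X → S × Bool, ∀ (x : X) (s : S × Bool), l (lt s • x) = s ↔ l x ≠ linv s := by
  classical
  -- representatives of the orbits
  obtain ⟨r, hr1, hr2⟩ : ∃ r : X → X, (∀ x, ∃ f : FreeGroup S, f • r x = x) ∧
      ∀ (x : X) (g : FreeGroup S), r (g • x) = r x := by
    refine ⟨fun x => (Quotient.mk (MulAction.orbitRel (FreeGroup S) X) x).out, ?_, ?_⟩
    · intro x
      have := Quotient.mk_out (s := MulAction.orbitRel (FreeGroup S) X) x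
      obtain ⟨f, hf⟩ := (MulAction.orbitRel_apply.1 ((MulAction.orbitRel (FreeGroup S) X).symm this))
      exact ⟨f, hf⟩
    · intro x g
      have : Quotient.mk (MulAction.orbitRel (FreeGroup S) X) (g • x) =
          Quotient.mk (MulAction.orbitRel (FreeGroup S) X) x := by
        apply Quotient.sound
        exact ⟨g, rfl⟩
      exact congrArg Quotient.out this
  choose f hf using hr1
  choose w hw1 hw2 using hX
  have hex : ∀ x, ∃ t, Lim (w (r x)) (f x) t := fun x => exists_lim _ _ (hw1 _)
  choose l hl using hex
  have key : ∀ (x : X) (g : FreeGroup S), g • r x = x → Lim (w (r x)) g (l x) := by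
    intro x g hg
    have h1 : ((f x)⁻¹ * g) • r x = r x := by
      rw [mul_smul, hg, inv_smul_eq_iff, hf]
    have h2 := hw2 (r x) _ h1
    have h3 := (hl x).mul_commute (hw1 _) h2
    rwa [mul_inv_cancel_left] at h3
  refine ⟨l, fun x s => ?_⟩
  have h1 := key x (f x) (hf x)
  have h2 := key (lt s • x) (lt s * f x) (by rw [hr2, mul_smul, hf])
  rw [hr2] at h2
  exact h1.letter h2

end Run7.h279
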