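import Pool.Agent.Run7.h279.BoolSystem
import Pool.Agent.Run7.h279.Flow

/-!
Solving systems of two-block relations along the action of a free group whose point stabilisers
centralise nontrivial elements.
-/

set_option autoImplicit false

namespace Run7.h279

open FreeGroup Function

/-- The first block of the relation attached to a letter. -/
def Dl {S I : Type*} (D C : S → Set I) (t : S × Bool) : Set I := if t.2 then D t.1 else C t.1

/-- The second block of the relation attached to a letter. -/
def Cl {S I : Type*} (D C : S → Set I) (t : S × Bool) : Set I := if t.2 then C t.1 else D t.1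

/-- One of the blocks `B`, `Bᶜ` meets both `A` and `Aᶜ`. -/
def Cross {I : Type*} (A B : Set I) : Prop :=
  ∃ d : Bool, ∀ c : Bool, ∃ a : I, (a ∈ A ↔ c = true) ∧ (a ∈ B ↔ d = true)

theorem exists_atoms {S X I : Type*} [MulAction (FreeGroup S) X]
    (hX : ∀ x : X, ∃ w : FreeGroup S, w ≠ 1 ∧ ∀ g : FreeGroup S, g • x = x → Commute g w)
    (D C : S → Set I)
    (hD : ∀ s, (D s).Nonempty ∧ (D s)ᶜ.Nonempty) (hC : ∀ s, (C s).Nonempty ∧ (C s)ᶜ.Nonempty)
    (h0 : S) (hfix : ∀ n : ℕ, 0 < n → ∀ x : X, (of h0) ^ n • x ≠ x)
    (hcr : ∀ t t' : S × Bool, t ≠ linv t' → (t.1 ≠ h0 ∧ t.2 = true ∨ t'.1 ≠ h0 ∧ t'.2 = false) →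
      Cross (Cl D C t) (Dl D C t')) :
    ∃ j : X → I, ∀ (s : S) (x : X), j x ∈ D s ↔ j (of s • x) ∈ C s := by
  classical
  obtain ⟨l, hl⟩ := exists_flow hX
  let p : X → X := fun x => (lt (l x))⁻¹ • x
  -- consecutive letters are not inverse
  have hcons : ∀ x, l (p x) ≠ linv (l x) := by
    intro x
    have h1 := (hl (p x) (l x)).1
    have h2 : lt (l x) • p x = x := smul_inv_smul _ _
    rw [h2] at h1
    exact h1 rfl
  have hblock : ∀ (t : S × Bool) (c : Bool), ∃ a : I, a ∈ Cl D C t ↔ c = true := by
    intro t c
    have h1 : (Cl D C t).Nonempty ∧ (Cl D C t)ᶜ.Nonempty := by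
      unfold Cl
      split_ifs
      · exact hC _
      · exact hD _
    cases c with
    | true =>
      obtain ⟨a, ha⟩ := h1.1
      exact ⟨a, by simpa using ha⟩
    | false =>
      obtain ⟨a, ha⟩ := h1.2
      exact ⟨a, by simpa using ha⟩
  have hcross : ∀ x ∈ periodicPts p, ∃ k : ℕ, ∃ d : Bool, ∀ c : Bool, ∃ a : I,
      (a ∈ Cl D C (l (p^[k + 1] x)) ↔ c = true) ∧ (a ∈ Dl D C (l (p^[k] x)) ↔ d = true) := by
    intro x hx
    obtain ⟨n, hn, hxn⟩ := hx
    by_cases hall : ∃ k, (l (p^[k] x)).1 ≠ h0
    · obtain ⟨k, hk⟩ := hall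
      -- we may move `k` to a positive index
      have hk1 : (l (p^[(k + n - 1) + 1] x)).1 ≠ h0 := by
        have : p^[(k + n - 1) + 1] x = p^[k] x := by
          rw [show k + n - 1 + 1 = k + n by omega, iterate_add_apply, hxn.eq]
        rw [this]
        exact hk
      rcases hb : (l (p^[k] x)).2 with _ | _
      · refine ⟨k, hcr _ _ ?_ (Or.inr ⟨hk, hb⟩)⟩
        rw [iterate_succ_apply']
        exact hcons _
      · refine ⟨k + n - 1, hcr _ _ ?_ (Or.inl ⟨hk1, ?_⟩)⟩
        · rw [iterate_succ_apply']
          exact hcons _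
        · have : p^[(k + n - 1) + 1] x = p^[k] x := by
            rw [show k + n - 1 + 1 = k + n by omega, iterate_add_apply, hxn.eq]
          rw [this]
          exact hb
    · exfalso
      push Not at hall
      -- all the letters are equal
      have hsame : ∀ k, l (p^[k] x) = l x := by
        intro k
        induction k with
        | zero => rfl
        | succ k ih =>
          have h1 := hcons (p^[k] x)
          rw [← iterate_succ_apply' p k x, ih] at h1
          have h2 := hall (k + 1)
          have h3 := hall 0
          have h4 : (l x).1 = h0 := h3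
          refine Prod.ext (by rw [h2, h4]) ?_
          by_contra hne
          apply h1
          refine Prod.ext (by rw [h2]; exact h4.symm) ?_
          show _ = !(l x).2
          cases ha : (l x).2 <;> cases hb : (l (p^[k + 1] x)).2 <;> simp_all
      have hpow : ∀ k, (lt (l x)) ^ k • p^[k] x = x := by
        intro k
        induction k with
        | zero => simp
        | succ k ih =>
          rw [pow_succ, mul_smul, iterate_succ_apply']
          have : lt (l x) • p (p^[k] x) = p^[k] x := by
            show lt (l x) • ((lt (l (p^[k] x)))⁻¹ • p^[k] x) = _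
            rw [hsame k, smul_inv_smul]
          rw [this, ih]
      have h5 := hpow n
      rw [hxn.eq] at h5
      have h6 : (l x).1 = h0 := hall 0
      have h7 : lt (l x) = of h0 ∨ lt (l x) = (of h0)⁻¹ := by
        rcases hb : (l x).2 with _ | _
        · right
          have : l x = linv (h0, true) := Prod.ext h6 hb
          rw [this, lt_linv]
          rfl
        · left
          have : l x = (h0, true) := Prod.ext h6 hb
          rw [this]
          rfl
      rcases h7 with h7 | h7
      · rw [h7] at h5
        exact hfix n hn x h5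
      · rw [h7, inv_pow, inv_smul_eq_iff] at h5
        exact hfix n hn x h5.symm
  obtain ⟨j, hj⟩ := assignment p l (Cl D C) (Dl D C) hblock hcross
  refine ⟨j, fun s x => ?_⟩
  by_cases hs : l (lt (s, true) • x) = (s, true)
  · have h1 := hj (lt (s, true) • x)
    have h2 : p (lt (s, true) • x) = x := by
      show (lt (l (lt (s, true) • x)))⁻¹ • (lt (s, true) • x) = x
      rw [hs, inv_smul_smul]
    rw [h2, hs] at h1
    exact h1
  · have h3 : l x = linv (s, true) := by
      by_contra hne
      exact hs ((hl x (s, true)).2 hne)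
    have h1 := hj x
    have h2 : p x = lt (s, true) • x := by
      show (lt (l x))⁻¹ • x = _
      rw [h3, lt_linv, inv_inv]
    rw [h2, h3] at h1
    exact h1.symm

end Run7.h279
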