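import Mathlib

/-!
Systems of equations `β x = Φ x (β (p x))` over `Bool` on a functional graph, and assignments of
atoms along a functional graph.
-/

set_option autoImplicit false

namespace Run7.h279

open Function Set

section Blocks

variable {X : Type*} (p : X → X) (Φ : X → Bool → Bool)

/-- The composition `Φ x ∘ Φ (p x) ∘ ... ∘ Φ (p^[n-1] x)`. -/
def comp : ℕ → X → Bool → Bool
  | 0, _ => id
  | n + 1, x => Φ x ∘ comp n (p x)

lemma comp_add (n m : ℕ) (x : X) (c : Bool) :
    comp p Φ (n + m) x c = comp p Φ n x (comp p Φ m (p^[n] x) c) := by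
  induction n generalizing x with
  | zero => simp [comp]
  | succ n ih =>
    rw [show n + 1 + m = (n + m) + 1 by omega]
    show Φ x (comp p Φ (n + m) (p x) c) = Φ x (comp p Φ n (p x) _)
    rw [ih]
    rfl

/-- `x` is good if the compositions are eventually constant. -/
def Good (x : X) (b : Bool) : Prop := ∃ n, ∀ c, comp p Φ n x c = b

lemma good_unique {x : X} {b b' : Bool} (h : Good p Φ x b) (h' : Good p Φ x b') : b = b' := by
  obtain ⟨n, hn⟩ := h
  obtain ⟨m, hm⟩ := h'
  have h1 := comp_add p Φ n m x true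
  have h2 := comp_add p Φ m n x true
  rw [hn] at h1
  rw [hm, Nat.add_comm] at h2
  rw [← h1, h2]

lemma good_step {x : X} {b : Bool} (h : Good p Φ (p x) b) : Good p Φ x (Φ x b) := by
  obtain ⟨n, hn⟩ := h
  refine ⟨n + 1, fun c => ?_⟩
  show Φ x (comp p Φ n (p x) c) = _
  rw [hn]

lemma good_of_const {x : X} {k : ℕ} {b : Bool} (h : ∀ c, Φ (p^[k] x) c = b) :
    ∃ b', Good p Φ x b' := by
  induction k generalizing x with
  | zero =>
    refine ⟨b, 1, fun c => ?_⟩
    exact h c
  | succ k ih =>
    obtain ⟨b', hb'⟩ := ih (x := p x) h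
    exact ⟨_, good_step p Φ hb'⟩

theorem bool_system
    (h : ∀ x ∈ periodicPts p, ∃ k : ℕ, ∃ b : Bool, ∀ c, Φ (p^[k] x) c = b) :
    ∃ β : X → Bool, ∀ x, β x = Φ x (β (p x)) := by
  classical
  -- the solution on the periodic points
  obtain ⟨β₀, hβ₀⟩ : ∃ β₀ : X → Bool, ∀ x ∈ periodicPts p, β₀ x = Φ x (β₀ (p x)) := by
    have hex : ∀ x : X, ∃ b : Bool, x ∈ periodicPts p → Good p Φ x b := by
      intro x
      by_cases hx : x ∈ periodicPts p
      · obtain ⟨k, b, hk⟩ := h x hx
        obtain ⟨b', hb'⟩ := good_of_const p Φ hk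
        exact ⟨b', fun _ => hb'⟩
      · exact ⟨true, fun hx' => absurd hx' hx⟩
    choose β₀ hβ₀ using hex
    refine ⟨β₀, fun x hx => ?_⟩
    have hpx : p x ∈ periodicPts p := (bijOn_periodicPts p).mapsTo hx
    exact good_unique p Φ (hβ₀ x hx) (good_step p Φ (hβ₀ (p x) hpx))
  -- finite subsystems
  have hfin : ∀ S : Finset X, ∃ β : X → Bool, ∀ x ∈ S, β x = Φ x (β (p x)) := by
    intro S
    induction S using Finset.strongInduction with
    | H S ih =>
      by_cases hleaf : ∃ x ∈ S, ∀ y ∈ S, p y ≠ x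
      · obtain ⟨x, hx, hy⟩ := hleaf
        obtain ⟨β, hβ⟩ := ih (S.erase x) (Finset.erase_ssubset hx)
        refine ⟨update β x (Φ x (β (p x))), ?_⟩
        intro y hyS
        have hpy : update β x (Φ x (β (p x))) (p y) = β (p y) := update_of_ne (hy y hyS) _ _
        rw [hpy]
        by_cases hyx : y = x
        · subst hyx
          rw [update_self]
        · rw [update_of_ne hyx]
          exact hβ y (Finset.mem_erase.2 ⟨hyx, hyS⟩)
      · push Not at hleaf
        have hsub : S ⊆ S.image p := by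
          intro x hx
          obtain ⟨y, hy, hyx⟩ := hleaf x hx
          exact Finset.mem_image.2 ⟨y, hy, hyx⟩
        have heq : S.image p = S := (Finset.eq_of_subset_of_card_le hsub Finset.card_image_le).symm
        have hinj : Set.InjOn p (S : Set X) := by
          apply Finset.injOn_of_card_image_eq
          rw [heq]
        have hmaps : ∀ x : S, p x.1 ∈ S := fun x => by
          have := Finset.mem_image_of_mem p x.2
          rwa [heq] at this
        let f : S → S := fun x => ⟨p x.1, hmaps x⟩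
        have hf : Injective f := by
          intro x y hxy
          exact Subtype.ext (hinj x.2 y.2 (congrArg Subtype.val hxy))
        refine ⟨β₀, fun x hx => hβ₀ x ?_⟩
        have hper : (⟨x, hx⟩ : S) ∈ periodicPts f := hf.mem_periodicPts _
        obtain ⟨n, hn, hfn⟩ := hper
        refine ⟨n, hn, ?_⟩
        have hsemi : ∀ (m : ℕ) (z : S), (f^[m] z).1 = p^[m] z.1 := by
          intro m
          induction m with
          | zero => intro z; rfl
          | succ m ihm => intro z; rw [iterate_succ_apply, iterate_succ_apply, ihm]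
        have := hsemi n ⟨x, hx⟩
        rw [hfn.eq] at this
        exact this.symm
  -- compactness
  have hcomp : IsCompact (Set.univ : Set (X → Bool)) := isCompact_univ
  have hne := hcomp.inter_iInter_nonempty (fun x : X => {β : X → Bool | β x = Φ x (β (p x))})
    (fun x => by
      apply isClosed_eq (continuous_apply x)
      exact (continuous_of_discreteTopology (f := Φ x)).comp (continuous_apply (p x)))
    (fun S => by
      obtain ⟨β, hβ⟩ := hfin S
      refine ⟨β, Set.mem_univ _, ?_⟩
      simp only [Set.mem_iInter, Set.mem_ofPred_eq]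
      exact hβ)
  obtain ⟨β, -, hβ⟩ := hne
  refine ⟨β, fun x => ?_⟩
  exact Set.mem_iInter.1 hβ x

end Blocks

section Assignment

variable {X I T : Type*} (p : X → X) (l : X → T) (C D : T → Set I)

/-- Assignment of atoms along the edges of a functional graph. -/
theorem assignment
    (hC : ∀ (t : T) (c : Bool), ∃ a : I, a ∈ C t ↔ c = true)
    (hcross : ∀ x ∈ periodicPts p, ∃ k : ℕ, ∃ d : Bool, ∀ c : Bool, ∃ a : I,
      (a ∈ C (l (p^[k + 1] x)) ↔ c = true) ∧ (a ∈ D (l (p^[k] x)) ↔ d = true)) :
    ∃ j : X → I, ∀ x, j (p x) ∈ D (l x) ↔ j x ∈ C (l x) := by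
  classical
  -- the choice of atoms
  have hex : ∀ y : X, ∃ e : Bool → I, (∀ c, e c ∈ C (l y) ↔ c = true) ∧
      ∀ x ∈ periodicPts p, p x = y → (∃ d : Bool, ∀ c : Bool, ∃ a : I,
        (a ∈ C (l y) ↔ c = true) ∧ (a ∈ D (l x) ↔ d = true)) →
        ∃ d : Bool, ∀ c, e c ∈ D (l x) ↔ d = true := by
    intro y
    by_cases hy : ∃ x ∈ periodicPts p, p x = y ∧ (∃ d : Bool, ∀ c : Bool, ∃ a : I,
        (a ∈ C (l y) ↔ c = true) ∧ (a ∈ D (l x) ↔ d = true))
    · obtain ⟨x, hx, hxy, d, hd⟩ := hy
      choose e he using hd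
      refine ⟨e, fun c => (he c).1, ?_⟩
      intro x' hx' hx'y _
      have : x' = x := (bijOn_periodicPts p).injOn hx' hx (hx'y.trans hxy.symm)
      subst this
      exact ⟨d, fun c => (he c).2⟩
    · choose e he using hC (l y)
      refine ⟨e, he, ?_⟩
      intro x hx hxy hd
      exact absurd ⟨x, hx, hxy, hd⟩ hy
  choose e he1 he2 using hex
  let Φ : X → Bool → Bool := fun x c => decide (e (p x) c ∈ D (l x))
  obtain ⟨β, hβ⟩ := bool_system p Φ (by
    intro x hx
    obtain ⟨k, hk⟩ := hcross x hx
    have hkx : p^[k] x ∈ periodicPts p := (bijOn_periodicPts p).mapsTo.iterate k hx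
    have hk' : p (p^[k] x) = p^[k + 1] x := (iterate_succ_apply' p k x).symm
    obtain ⟨d, hd⟩ := he2 (p^[k + 1] x) (p^[k] x) hkx hk' hk
    refine ⟨k, d, fun c => ?_⟩
    show decide (e (p (p^[k] x)) c ∈ D (l (p^[k] x))) = d
    rw [hk']
    have h3 := hd c
    cases d
    · rw [decide_eq_false_iff_not, h3]
      simp
    · rw [decide_eq_true_iff, h3])
  refine ⟨fun x => e x (β x), fun x => ?_⟩
  have h1 := he1 x (β x)
  have h2 := hβ x
  show e (p x) (β (p x)) ∈ D (l x) ↔ e x (β x) ∈ C (l x)
  rw [h1, h2]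
  show _ ↔ decide (e (p x) (β (p x)) ∈ D (l x)) = true
  rw [decide_eq_true_iff]

end Assignment

end Run7.h279
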