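import Mathlib

/-!
Parabolic elements of `SL(2, ℝ)` with algebraically independent fixed points generate a free group.
-/

set_option autoImplicit false

namespace Run7.h279

open Matrix UpperHalfPlane FreeGroup MatrixGroups

/-- The parabolic matrix with fixed point `t`. -/
def par {R : Type*} [CommRing R] (t : R) : SpecialLinearGroup (Fin 2) R :=
  ⟨!![1 + t, -t ^ 2; 1, 1 - t], by rw [Matrix.det_fin_two_of]; ring⟩

lemma par_map {R R' : Type*} [CommRing R] [CommRing R'] (f : R →+* R') (t : R) :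
    SpecialLinearGroup.map f (par t) = par (f t) := by
  ext i j
  rw [SpecialLinearGroup.map_apply_coe]
  fin_cases i <;> fin_cases j <;> simp [par]

/-- The representation of the free group. -/
def rep {S R : Type*} [CommRing R] (t : S → R) : FreeGroup S →* SpecialLinearGroup (Fin 2) R :=
  FreeGroup.lift fun s => par (t s)

lemma rep_map {S R R' : Type*} [CommRing R] [CommRing R'] (f : R →+* R') (t : S → R)
    (g : FreeGroup S) : SpecialLinearGroup.map f (rep t g) = rep (fun s => f (t s)) g := by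
  have : (SpecialLinearGroup.map f).comp (rep t) = rep (fun s => f (t s)) := by
    apply FreeGroup.ext_hom
    intro s
    simp [rep, par_map]
  exact DFunLike.congr_fun this g

lemma rep_freeMap {S S' R : Type*} [CommRing R] (t : S' → R) (n : S → S') (g : FreeGroup S) :
    rep t (FreeGroup.map n g) = rep (fun s => t (n s)) g := by
  have : (rep t).comp (FreeGroup.map n) = rep (fun s => t (n s)) := by
    apply FreeGroup.ext_hom
    intro s
    simp [rep]
  exact DFunLike.congr_fun this g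

/-- The action of a parabolic matrix, in the coordinate `w = z - t`. -/
lemma coe_par_smul (t : ℝ) (z : ℍ) :
    ((par t • z : ℍ) : ℂ) - t = ((z : ℂ) - t) / ((z : ℂ) - t + 1) := by
  have hz : (z : ℂ) - t + 1 ≠ 0 := by
    intro h
    have := congrArg Complex.im h
    simp at this
    exact z.im_ne_zero this
  rw [coe_specialLinearGroup_apply]
  have hN : ((algebraMap ℝ ℝ ((par t) 0 0) : ℂ) * z + (algebraMap ℝ ℝ ((par t) 0 1) : ℂ)) =
      (1 + t) * z - t ^ 2 := by
    simp [par]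
    ring
  have hD : ((algebraMap ℝ ℝ ((par t) 1 0) : ℂ) * z + (algebraMap ℝ ℝ ((par t) 1 1) : ℂ)) =
      z - t + 1 := by
    simp [par]
    ring
  rw [hN, hD, div_sub' hz, div_left_inj' hz]
  ring

lemma coe_par_inv_smul (t : ℝ) (z : ℍ) :
    (((par t)⁻¹ • z : ℍ) : ℂ) - t = ((z : ℂ) - t) / (1 - ((z : ℂ) - t)) := by
  set y := (par t)⁻¹ • z with hy
  have hzy : z = par t • y := by rw [hy, smul_inv_smul]
  have h1 := coe_par_smul t y
  rw [← hzy] at h1
  have hyne : (y : ℂ) - t + 1 ≠ 0 := by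
    intro h
    have := congrArg Complex.im h
    simp at this
    exact y.im_ne_zero this
  have h2 : 1 - ((z : ℂ) - t) = 1 / ((y : ℂ) - t + 1) := by
    rw [h1]
    field_simp
    ring
  rw [h2, h1]
  field_simp

/-- No power of a parabolic matrix fixes a point of the upper half plane. -/
lemma par_pow_smul_ne (t : ℝ) (n : ℕ) (hn : 0 < n) (z : ℍ) : (par t) ^ n • z ≠ z := by
  -- the function `-1/(z - t)` is shifted by `-1`
  have hshift : ∀ (n : ℕ) (z : ℍ), -1 / ((((par t) ^ n • z : ℍ) : ℂ) - t) =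
      -1 / ((z : ℂ) - t) - n := by
    intro n
    induction n with
    | zero => intro z; simp
    | succ n ih =>
      intro z
      have hz0 : (z : ℂ) - t ≠ 0 := by
        intro h
        have := congrArg Complex.im h
        simp at this
        exact z.im_ne_zero this
      have hz : (z : ℂ) - t + 1 ≠ 0 := by
        intro h
        have := congrArg Complex.im h
        simp at this
        exact z.im_ne_zero this
      rw [pow_succ, mul_smul, ih, coe_par_smul]
      push_cast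
      field_simp
      ring
  intro h
  have h1 := hshift n z
  rw [h] at h1
  have h2 : ((n : ℕ) : ℂ) = 0 := by linear_combination h1
  have h3 : n = 0 := by exact_mod_cast h2
  omega

/-- Stabilisers of points of the upper half plane in `SL(2, ℝ)` are commutative. -/
lemma commute_of_fix (A B : SL(2, ℝ)) (z : ℍ) (hA : A • z = z) (hB : B • z = z) :
    Commute A B := by
  have key : ∀ A : SL(2, ℝ), A • z = z →
      A 0 1 = -(A 1 0 * (z.re ^ 2 + z.im ^ 2)) ∧ A 0 0 = A 1 1 + 2 * A 1 0 * z.re := by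
    intro A hA
    have h1 := congrArg (fun w : ℍ => (w : ℂ)) hA
    simp only [coe_specialLinearGroup_apply] at h1
    have hden : ((A 1 0 : ℝ) : ℂ) * z + ((A 1 1 : ℝ) : ℂ) ≠ 0 := by
      have := denom_ne_zero (A : GL (Fin 2) ℝ) z
      simpa [denom] using this
    simp only [Algebra.algebraMap_self, RingHom.id_apply] at h1
    rw [div_eq_iff hden] at h1
    have hre := congrArg Complex.re h1
    have him := congrArg Complex.im h1
    simp at hre him
    have hz := z.im_ne_zero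
    have h2 : A 0 0 = A 1 1 + 2 * A 1 0 * z.re := by
      have h3 : z.im * (A 0 0 - (A 1 1 + 2 * A 1 0 * z.re)) = 0 := by
        have e1 : (z : ℂ).im = z.im := rfl
        have e2 : (z : ℂ).re = z.re := rfl
        linarith
      rcases mul_eq_zero.1 h3 with h4 | h4
      · exact absurd h4 hz
      · linarith
    refine ⟨?_, h2⟩
    rw [h2] at hre
    linarith
  obtain ⟨a1, a2⟩ := key A hA
  obtain ⟨b1, b2⟩ := key B hB
  show A * B = B * A
  ext i j
  fin_cases i <;> fin_cases j <;>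
    simp [Matrix.mul_apply, Fin.sum_univ_two, a1, a2, b1, b2] <;> ring

/-- The parabolics with fixed points `5 n` generate a free group. -/
lemma rep_nat_injective : Function.Injective (rep (fun n : ℕ => (5 * n : ℝ))) := by
  have hsep : ∀ (m n : ℕ), m ≠ n → (5 : ℝ) ≤ |(5 * m : ℝ) - 5 * n| := by
    intro m n hmn
    have h1 : (1 : ℤ) ≤ |(m : ℤ) - n| := Int.one_le_abs (by omega)
    have h2 : (1 : ℝ) ≤ |(m : ℝ) - n| := by exact_mod_cast h1
    rw [← mul_sub, abs_mul]
    norm_num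
    linarith
  -- two discs with close points have the same centre
  have hclose : ∀ (m n : ℕ) (z : ℍ) (a b : ℝ), |a| ≤ 1 → |b| ≤ 1 →
      ‖(z : ℂ) - (5 * m : ℝ) + a‖ ≤ 1 → ‖(z : ℂ) - (5 * n : ℝ) + b‖ ≤ 1 → m = n := by
    intro m n z a b ha hb h1 h2
    by_contra hne
    have h3 := hsep m n hne
    have h4 : ‖(((5 * m : ℝ) - 5 * n : ℝ) : ℂ)‖ ≤ 4 := by
      calc ‖(((5 * m : ℝ) - 5 * n : ℝ) : ℂ)‖
          = ‖((z : ℂ) - (5 * n : ℝ) + b) - ((z : ℂ) - (5 * m : ℝ) + a) + ((a : ℝ) : ℂ) -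
            ((b : ℝ) : ℂ)‖ := by
            congr 1
            push_cast
            ring
        _ ≤ ‖((z : ℂ) - (5 * n : ℝ) + b) - ((z : ℂ) - (5 * m : ℝ) + a) + ((a : ℝ) : ℂ)‖ +
            ‖((b : ℝ) : ℂ)‖ := norm_sub_le _ _
        _ ≤ ‖((z : ℂ) - (5 * n : ℝ) + b) - ((z : ℂ) - (5 * m : ℝ) + a)‖ + ‖((a : ℝ) : ℂ)‖ +
            ‖((b : ℝ) : ℂ)‖ := by gcongr; exact norm_add_le _ _
        _ ≤ ‖((z : ℂ) - (5 * n : ℝ) + b)‖ + ‖((z : ℂ) - (5 * m : ℝ) + a)‖ + ‖((a : ℝ) : ℂ)‖ +
            ‖((b : ℝ) : ℂ)‖ := by gcongr; exact norm_sub_le _ _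
        _ ≤ 1 + 1 + 1 + 1 := by
            rw [Complex.norm_real, Complex.norm_real, Real.norm_eq_abs, Real.norm_eq_abs]
            gcongr
        _ = 4 := by norm_num
    rw [Complex.norm_real, Real.norm_eq_abs] at h4
    linarith
  apply FreeGroup.injective_lift_of_ping_pong (fun n : ℕ => par (5 * n : ℝ))
    (fun n : ℕ => {z : ℍ | ‖(z : ℂ) - (5 * n : ℝ) - 1‖ ≤ 1})
    (fun n : ℕ => {z : ℍ | ‖(z : ℂ) - (5 * n : ℝ) + 1‖ < 1})
  · intro n
    refine ⟨⟨(5 * n : ℝ) + 1 + Complex.I, by simp⟩, ?_⟩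
    show ‖(((5 * n : ℝ) + 1 + Complex.I : ℂ)) - (5 * n : ℝ) - 1‖ ≤ (1 : ℝ)
    have : (((5 * n : ℝ) : ℂ) + 1 + Complex.I) - ((5 * n : ℝ) : ℂ) - 1 = Complex.I := by ring
    rw [this, Complex.norm_I]
  · intro m n hmn
    rw [Function.onFun, Set.disjoint_left]
    intro z h1 h2
    have h1' : ‖(z : ℂ) - (5 * m : ℝ) + ((-1 : ℝ) : ℂ)‖ ≤ 1 := by
      have : ‖(z : ℂ) - (5 * m : ℝ) - 1‖ ≤ 1 := h1
      rw [Complex.ofReal_neg, Complex.ofReal_one, ← sub_eq_add_neg]
      exact this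
    have h2' : ‖(z : ℂ) - (5 * n : ℝ) + ((-1 : ℝ) : ℂ)‖ ≤ 1 := by
      have : ‖(z : ℂ) - (5 * n : ℝ) - 1‖ ≤ 1 := h2
      rw [Complex.ofReal_neg, Complex.ofReal_one, ← sub_eq_add_neg]
      exact this
    exact hmn (hclose m n z _ _ (by norm_num) (by norm_num) h1' h2')
  · intro m n hmn
    rw [Function.onFun, Set.disjoint_left]
    intro z h1 h2
    have h1' : ‖(z : ℂ) - (5 * m : ℝ) + ((1 : ℝ) : ℂ)‖ ≤ 1 := by
      have : ‖(z : ℂ) - (5 * m : ℝ) + 1‖ < 1 := h1
      rw [Complex.ofReal_one]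
      exact this.le
    have h2' : ‖(z : ℂ) - (5 * n : ℝ) + ((1 : ℝ) : ℂ)‖ ≤ 1 := by
      have : ‖(z : ℂ) - (5 * n : ℝ) + 1‖ < 1 := h2
      rw [Complex.ofReal_one]
      exact this.le
    exact hmn (hclose m n z _ _ (by norm_num) (by norm_num) h1' h2')
  · intro m n
    rw [Set.disjoint_left]
    intro z h1 h2
    have h1' : ‖(z : ℂ) - (5 * m : ℝ) + ((-1 : ℝ) : ℂ)‖ ≤ 1 := by
      have : ‖(z : ℂ) - (5 * m : ℝ) - 1‖ ≤ 1 := h1
      rw [Complex.ofReal_neg, Complex.ofReal_one, ← sub_eq_add_neg]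
      exact this
    have h3 : ‖(z : ℂ) - (5 * n : ℝ) + 1‖ < 1 := h2
    have h2' : ‖(z : ℂ) - (5 * n : ℝ) + ((1 : ℝ) : ℂ)‖ ≤ 1 := by
      rw [Complex.ofReal_one]
      exact h3.le
    have hmn := hclose m n z _ _ (by norm_num) (by norm_num) h1' h2'
    subst hmn
    have h4 : ‖(z : ℂ) - (5 * m : ℝ) - 1‖ ≤ 1 := h1
    have h5 : ‖(2 : ℂ)‖ < 2 := by
      calc ‖(2 : ℂ)‖ = ‖((z : ℂ) - (5 * m : ℝ) + 1) - ((z : ℂ) - (5 * m : ℝ) - 1)‖ := by
            congr 1
            ring
        _ ≤ ‖(z : ℂ) - (5 * m : ℝ) + 1‖ + ‖(z : ℂ) - (5 * m : ℝ) - 1‖ := norm_sub_le _ _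
        _ < 2 := by linarith
    norm_num at h5
  · intro n
    rintro _ ⟨z, hz, rfl⟩
    have hz' : 1 ≤ ‖(z : ℂ) - (5 * n : ℝ) + 1‖ := not_lt.1 hz
    show ‖((par (5 * n : ℝ) • z : ℍ) : ℂ) - (5 * n : ℝ) - 1‖ ≤ 1
    have hne : (z : ℂ) - (5 * n : ℝ) + 1 ≠ 0 := by
      intro h
      rw [h, norm_zero] at hz'
      linarith
    rw [coe_par_smul]
    have : ((z : ℂ) - (5 * n : ℝ)) / ((z : ℂ) - (5 * n : ℝ) + 1) - 1 =
        -1 / ((z : ℂ) - (5 * n : ℝ) + 1) := by
      rw [div_sub' hne, div_left_inj' hne]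
      ring
    rw [this, norm_div, norm_neg, NormOneClass.norm_one]
    exact (div_le_one (by linarith)).2 hz'
  · intro n
    rintro _ ⟨z, hz, rfl⟩
    have hz' : 1 < ‖(z : ℂ) - (5 * n : ℝ) - 1‖ := not_le.1 hz
    show ‖(((par (5 * n : ℝ))⁻¹ • z : ℍ) : ℂ) - (5 * n : ℝ) + 1‖ < 1
    have hz2 : 1 < ‖1 - ((z : ℂ) - (5 * n : ℝ))‖ := by
      rw [norm_sub_rev]
      exact hz'
    have hne : 1 - ((z : ℂ) - (5 * n : ℝ)) ≠ 0 := by
      intro h
      rw [h, norm_zero] at hz2
      linarith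
    rw [coe_par_inv_smul]
    have : ((z : ℂ) - (5 * n : ℝ)) / (1 - ((z : ℂ) - (5 * n : ℝ))) + 1 =
        1 / (1 - ((z : ℂ) - (5 * n : ℝ))) := by
      rw [div_add' _ _ _ hne, div_left_inj' hne]
      ring
    rw [this, norm_div, NormOneClass.norm_one]
    exact (div_lt_one (by linarith)).2 hz2

/-- Algebraically independent fixed points give a free group. -/
theorem rep_injective {S : Type*} (t : S → ℝ) (ht : AlgebraicIndependent ℤ t) :
    Function.Injective (rep t) := by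
  classical
  rw [injective_iff_map_eq_one]
  intro g hg
  -- the generic representation
  have h1 : rep (fun s : S => (MvPolynomial.X s : MvPolynomial S ℤ)) g = 1 := by
    have h2 := rep_map ((MvPolynomial.aeval t : MvPolynomial S ℤ →ₐ[ℤ] ℝ) : MvPolynomial S ℤ →+* ℝ)
      (fun s : S => (MvPolynomial.X s : MvPolynomial S ℤ)) g
    simp only [RingHom.coe_coe, MvPolynomial.aeval_X] at h2
    rw [hg] at h2
    have hinj : Function.Injective (SpecialLinearGroup.map (n := Fin 2)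
        ((MvPolynomial.aeval t : MvPolynomial S ℤ →ₐ[ℤ] ℝ) : MvPolynomial S ℤ →+* ℝ)) := by
      intro A B hAB
      ext i j
      have h3 := congrArg (fun M : SL(2, ℝ) => M i j) hAB
      simp only [SpecialLinearGroup.map_apply_coe, RingHom.mapMatrix_apply, Matrix.map_apply] at h3
      exact congrArg _ (ht h3)
    exact hinj (h2.trans (_root_.map_one _).symm)
  -- specialisation
  obtain ⟨n, hn⟩ : ∃ n : S → ℕ, Set.InjOn n {s | s ∈ g.toWord.map Prod.fst} := by
    have hfin : ({s | s ∈ g.toWord.map Prod.fst} : Set S).Finite := List.finite_toSet _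
    obtain ⟨n, hn⟩ := hfin.exists_injOn_of_encard_le (t := (Set.univ : Set ℕ)) (by simp)
    exact ⟨n, hn.2⟩
  have h4 : rep (fun s : S => (5 * n s : ℝ)) g = 1 := by
    have h5 := rep_map ((MvPolynomial.aeval (fun s => (5 * n s : ℝ)) : MvPolynomial S ℤ →ₐ[ℤ] ℝ) :
      MvPolynomial S ℤ →+* ℝ) (fun s : S => (MvPolynomial.X s : MvPolynomial S ℤ)) g
    simp only [RingHom.coe_coe, MvPolynomial.aeval_X] at h5
    rw [← h5, h1, _root_.map_one]
  rw [← rep_freeMap (fun n : ℕ => (5 * n : ℝ)) n g] at h4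
  have h6 : FreeGroup.map n g = 1 := rep_nat_injective (h4.trans (_root_.map_one _).symm)
  -- a left inverse on the letters
  by_cases hS : Nonempty S
  · obtain ⟨m, hm⟩ : ∃ m : ℕ → S, ∀ s ∈ g.toWord.map Prod.fst, m (n s) = s :=
      ⟨Function.invFunOn n {s | s ∈ g.toWord.map Prod.fst}, fun s hs => hn.leftInvOn_invFunOn hs⟩
    have h7 : FreeGroup.map m (FreeGroup.map n g) = g := by
      rw [FreeGroup.map.comp]
      conv_lhs => rw [← mk_toWord (x := g)]
      conv_rhs => rw [← mk_toWord (x := g)]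
      rw [FreeGroup.map.mk]
      congr 1
      conv_rhs => rw [← List.map_id g.toWord]
      apply List.map_congr_left
      rintro ⟨s, b⟩ hs
      refine Prod.ext ?_ rfl
      exact hm s (List.mem_map_of_mem (f := Prod.fst) hs)
    rw [← h7, h6, _root_.map_one]
  · have : IsEmpty S := not_nonempty_iff.1 hS
    exact Subsingleton.elim _ _

end Run7.h279
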