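import Pool.Agent.Run7.h279.Atoms
import Pool.Agent.Run7.h279.Parabolic

/-!
Every proper system of at most continuum many congruences has a solution in the hyperbolic plane.
-/

set_option autoImplicit false

namespace Run7.h279

open Matrix UpperHalfPlane FreeGroup MatrixGroups Cardinal

/-- An algebraically independent family of reals indexed by a type of size at most the continuum. -/
lemma exists_algIndep (S : Type) (hS : #S ≤ 𝔠) : ∃ t : S → ℝ, AlgebraicIndependent ℤ t := by
  obtain ⟨s, hs⟩ := exists_isTranscendenceBasis ℤ ℝ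
  have hcard : #s = 𝔠 := by
    have h1 : #ℝ ≤ max #s ℵ₀ := by
      have hne : Nonempty s := by
        by_contra hemp
        have : IsEmpty s := not_nonempty_iff.1 hemp
        have h2 : Algebra.IsAlgebraic ℤ ℝ := by
          rw [hs.isEmpty_iff_isAlgebraic] at this
          exact this
        have h3 := Algebra.IsAlgebraic.cardinalMk_le_max ℤ ℝ
        rw [mk_real, mk_int, max_self] at h3
        exact absurd h3 (not_le.2 aleph0_lt_continuum)
      have h4 := hs.lift_cardinalMk_eq_max_lift
      simp only [mk_int, lift_id] at h4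
      rw [h4]
      exact max_le (max_le (le_max_right _ _) (le_max_left _ _)) (le_max_right _ _)
    rw [mk_real] at h1
    have h2 : #s ≤ 𝔠 := by
      rw [← mk_real]
      exact mk_set_le s
    rcases le_max_iff.1 h1 with h3 | h3
    · exact le_antisymm h2 h3
    · exact absurd h3 (not_le.2 aleph0_lt_continuum)
  rw [← hcard] at hS
  obtain ⟨f⟩ := hS
  exact ⟨fun x => f x, hs.1.comp f f.injective⟩

theorem congruences (I M : Type) (L R : M → Set I) (hI : Nonempty I)
    (hM : #M ≤ 𝔠)
    (hprop : ∀ i, (L i).Nonempty ∧ L i ≠ Set.univ ∧ (R i).Nonempty ∧ R i ≠ Set.univ) :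
    ∃ A : I → Set UpperHalfPlane,
      Pairwise (fun j k => Disjoint (A j) (A k)) ∧
      (⋃ j, A j) = Set.univ ∧
      ∀ i, ∃ g : IsometryEquiv UpperHalfPlane UpperHalfPlane,
        g '' (⋃ j ∈ L i, A j) = ⋃ j ∈ R i, A j := by
  classical
  obtain ⟨j0⟩ := hI
  -- the sets of atoms which occur, normalised to contain `j0`
  let V : Set (Set I) := {S | j0 ∈ S ∧ ∃ i, S = L i ∨ S = (L i)ᶜ ∨ S = R i ∨ S = (R i)ᶜ}
  have hVproper : ∀ S ∈ V, Sᶜ.Nonempty := by
    rintro S ⟨-, i, h⟩
    obtain ⟨h1, h2, h3, h4⟩ := hprop i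
    rcases h with rfl | rfl | rfl | rfl
    · exact Set.nonempty_compl.2 h2
    · rw [compl_compl]; exact h1
    · exact Set.nonempty_compl.2 h4
    · rw [compl_compl]; exact h3
  have hVcard : #(Option V) ≤ 𝔠 := by
    have h1 : #V ≤ 𝔠 := by
      have h2 : V ⊆ Set.range (fun q : M × Bool × Bool =>
          if q.2.1 then (if q.2.2 then L q.1 else (L q.1)ᶜ)
            else (if q.2.2 then R q.1 else (R q.1)ᶜ)) := by
        rintro S ⟨-, i, h⟩
        rcases h with rfl | rfl | rfl | rfl
        · exact ⟨(i, true, true), rfl⟩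
        · exact ⟨(i, true, false), rfl⟩
        · exact ⟨(i, false, true), rfl⟩
        · exact ⟨(i, false, false), rfl⟩
      refine (mk_le_mk_of_subset h2).trans (mk_range_le.trans ?_)
      rw [mk_prod, Cardinal.lift_id, Cardinal.lift_id]
      have h3 : #(Bool × Bool) ≤ 𝔠 :=
        ((lt_aleph0_of_finite (Bool × Bool)).trans aleph0_lt_continuum).le
      calc #M * #(Bool × Bool) ≤ 𝔠 * 𝔠 := mul_le_mul' hM h3
        _ = 𝔠 := continuum_mul_self
    rw [mk_option]
    calc #V + 1 ≤ 𝔠 + 1 := by gcongr
      _ = 𝔠 := Cardinal.add_one_eq aleph0_le_continuum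
  obtain ⟨t, ht⟩ := exists_algIndep (Option V) hVcard
  have hinj := rep_injective t ht
  let act : MulAction (FreeGroup (Option V)) ℍ := MulAction.compHom ℍ (rep t)
  have hact : ∀ (g : FreeGroup (Option V)) (x : ℍ), g • x = rep t g • x := fun g x => rfl
  let D : Option V → Set (I × Bool) := fun _ => {a | a.2 = true}
  let C : Option V → Set (I × Bool) := fun s =>
    match s with
    | none => {a | a.2 = false}
    | some S => {a | a.1 ∈ (S : Set I)}
  have hfix : ∀ n : ℕ, 0 < n → ∀ x : ℍ, (of (none : Option V)) ^ n • x ≠ x := by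
    intro n hn x
    rw [hact, _root_.map_pow]
    have : rep t (of none) = par (t none) := by simp [rep]
    rw [this]
    exact par_pow_smul_ne _ n hn x
  have hX : ∀ x : ℍ, ∃ w : FreeGroup (Option V), w ≠ 1 ∧
      ∀ g : FreeGroup (Option V), g • x = x → Commute g w := by
    intro x
    by_cases h : ∃ g : FreeGroup (Option V), g ≠ 1 ∧ g • x = x
    · obtain ⟨w, hw, hwx⟩ := h
      refine ⟨w, hw, fun g hg => ?_⟩
      apply hinj
      rw [_root_.map_mul, _root_.map_mul]
      exact commute_of_fix _ _ x hg hwx
    · push Not at h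
      refine ⟨of none, of_ne_one _, fun g hg => ?_⟩
      by_cases hg1 : g = 1
      · rw [hg1]
        exact Commute.one_left _
      · exact absurd hg (h g hg1)
  have hsets : ∀ (S T : V), S ≠ T → ∀ (A B : Set (I × Bool)), A = {a | a.1 ∈ (S : Set I)} →
      B = {a | a.1 ∈ (T : Set I)} → Cross A B := by
    rintro S T hne A B rfl rfl
    by_cases hsub : (T : Set I) ⊆ S
    · have h1 : ∃ k ∈ (S : Set I), k ∉ (T : Set I) := by
        by_contra hcon
        push Not at hcon
        exact hne (Subtype.ext (Set.Subset.antisymm hcon hsub))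
      obtain ⟨k, hkS, hkT⟩ := h1
      obtain ⟨k', hk'⟩ := hVproper S S.2
      refine ⟨false, fun c => ?_⟩
      cases c with
      | true => exact ⟨(k, true), by simpa using hkS, by simpa using hkT⟩
      | false => exact ⟨(k', true), by simpa using hk', by simpa using fun h => hk' (hsub h)⟩
    · obtain ⟨k, hkT, hkS⟩ := Set.not_subset.1 hsub
      refine ⟨true, fun c => ?_⟩
      cases c with
      | true => exact ⟨(j0, true), by simpa using S.2.1, by simpa using T.2.1⟩
      | false => exact ⟨(k, true), by simpa using hkS, by simpa using hkT⟩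
  obtain ⟨j, hj⟩ := exists_atoms (X := ℍ) hX D C
    (by
      intro s
      exact ⟨⟨(j0, true), rfl⟩, ⟨(j0, false), by simp [D]⟩⟩)
    (by
      intro s
      rcases s with _ | S
      · exact ⟨⟨(j0, false), rfl⟩, ⟨(j0, true), by simp [C]⟩⟩
      · obtain ⟨k, hk⟩ := hVproper S S.2
        exact ⟨⟨(j0, true), S.2.1⟩, ⟨(k, true), hk⟩⟩)
    none hfix
    (by
      intro u u' hne hor
      rcases hor with ⟨h1, h2⟩ | ⟨h1, h2⟩
      · obtain ⟨_ | S, b⟩ := u
        · exact absurd rfl h1
        have hb : b = true := h2
        subst hb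
        obtain ⟨k, hk⟩ := hVproper S S.2
        have hA : Cl D C (some S, true) = {a | a.1 ∈ (S : Set I)} := rfl
        rw [hA]
        obtain ⟨s', b'⟩ := u'
        rcases b' with _ | _
        · rcases s' with _ | T
          · have hB : Dl D C (none, false) = {a | a.2 = false} := rfl
            rw [hB]
            refine ⟨true, fun c => ?_⟩
            cases c with
            | true => exact ⟨(j0, false), by simpa using S.2.1, by simp⟩
            | false => exact ⟨(k, false), by simpa using hk, by simp⟩
          · apply hsets S T _ _ _ rfl rfl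
            rintro rfl
            exact hne rfl
        · have hB : Dl D C (s', true) = {a | a.2 = true} := rfl
          rw [hB]
          refine ⟨true, fun c => ?_⟩
          cases c with
          | true => exact ⟨(j0, true), by simpa using S.2.1, by simp⟩
          | false => exact ⟨(k, true), by simpa using hk, by simp⟩
      · obtain ⟨_ | S, b⟩ := u'
        · exact absurd rfl h1
        have hb : b = false := h2
        subst hb
        have hB : Dl D C (some S, false) = {a | a.1 ∈ (S : Set I)} := rfl
        rw [hB]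
        obtain ⟨s', b'⟩ := u
        rcases b' with _ | _
        · have hA : Cl D C (s', false) = {a | a.2 = true} := rfl
          rw [hA]
          refine ⟨true, fun c => ?_⟩
          cases c with
          | true => exact ⟨(j0, true), by simp, by simpa using S.2.1⟩
          | false => exact ⟨(j0, false), by simp, by simpa using S.2.1⟩
        · rcases s' with _ | T
          · have hA : Cl D C (none, true) = {a | a.2 = false} := rfl
            rw [hA]
            refine ⟨true, fun c => ?_⟩
            cases c with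
            | true => exact ⟨(j0, false), by simp, by simpa using S.2.1⟩
            | false => exact ⟨(j0, true), by simp, by simpa using S.2.1⟩
          · apply hsets T S _ _ _ rfl rfl
            rintro rfl
            exact hne rfl)
  -- every set of atoms which occurs is a translate of one fixed set
  have hgroup : ∀ S : Set I, (S ∈ V ∨ Sᶜ ∈ V) → ∃ g : FreeGroup (Option V),
      ∀ x : ℍ, (j x).2 = true ↔ (j (g • x)).1 ∈ S := by
    rintro S (hS | hS)
    · exact ⟨of (some ⟨S, hS⟩), fun x => hj (some ⟨S, hS⟩) x⟩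
    · refine ⟨of (some ⟨Sᶜ, hS⟩) * of none, fun x => ?_⟩
      have h1 : (j x).2 = true ↔ (j (of (none : Option V) • x)).2 = false := hj none x
      have h2 : (j (of (none : Option V) • x)).2 = true ↔
          (j (of (some (⟨Sᶜ, hS⟩ : V)) • of (none : Option V) • x)).1 ∈ Sᶜ :=
        hj (some ⟨Sᶜ, hS⟩) _
      rw [mul_smul, h1, ← Bool.not_eq_true, h2]
      exact not_not
  have hV : ∀ i, (L i ∈ V ∨ (L i)ᶜ ∈ V) ∧ (R i ∈ V ∨ (R i)ᶜ ∈ V) := by
    intro i
    constructor
    · by_cases h : j0 ∈ L i
      · exact Or.inl ⟨h, i, Or.inl rfl⟩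
      · exact Or.inr ⟨h, i, Or.inr (Or.inl rfl)⟩
    · by_cases h : j0 ∈ R i
      · exact Or.inl ⟨h, i, Or.inr (Or.inr (Or.inl rfl))⟩
      · exact Or.inr ⟨h, i, Or.inr (Or.inr (Or.inr rfl))⟩
  refine ⟨fun a => {x | (j x).1 = a}, ?_, ?_, fun i => ?_⟩
  · intro a b hab
    rw [Set.disjoint_left]
    intro x (hx : (j x).1 = a) (hx' : (j x).1 = b)
    exact hab (hx.symm.trans hx')
  · ext x
    simp
  · obtain ⟨gL, hL⟩ := hgroup (L i) (hV i).1
    obtain ⟨gR, hR⟩ := hgroup (R i) (hV i).2
    refine ⟨IsometryEquiv.constSMul (rep t (gR * gL⁻¹)), ?_⟩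
    have hU : ∀ S : Set I, (⋃ a ∈ S, {x : ℍ | (j x).1 = a}) = {x | (j x).1 ∈ S} := by
      intro S
      ext x
      simp
    rw [hU, hU]
    ext y
    constructor
    · rintro ⟨x, hx, rfl⟩
      show (j (rep t (gR * gL⁻¹) • x)).1 ∈ R i
      rw [← hact, mul_smul, ← hR, hL, smul_inv_smul]
      exact hx
    · intro hy
      refine ⟨(gL * gR⁻¹) • y, ?_, ?_⟩
      · show (j ((gL * gR⁻¹) • y)).1 ∈ L i
        rw [mul_smul, ← hL, hR, smul_inv_smul]
        exact hy
      · show rep t (gR * gL⁻¹) • (gL * gR⁻¹) • y = y
        rw [← hact, ← mul_smul]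
        simp

end Run7.h279
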